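import Pool.Agent.Lib_helper64.FMS.Params

/-!
# A lower bound for `f(m,s)` for fixed `s` and all large `m`

The trivial upper bound is `f(m,s) ≤ (m+s).choose s`, which is asymptotic to `m^s / s!` for fixed
`s`. The lower bound below differs from it by a factor `O(s log s)`.
-/

namespace Pool.Agent.Results.MP_f16338_co.FixedSummands

open Pool.Agent.FMS

/-- For every `s ≥ 2` and all sufficiently large `m`,
`f(m,s) ≥ m^s / (120 s ⌈log₂ s⌉ s!)`. -/
theorem result (s : ℕ) (hs : 2 ≤ s) :
    ∀ᶠ m : ℕ in Filter.atTop,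
      m ^ s ≤ 120 * (s * Nat.clog 2 s * s.factorial) * f m s := by
  obtain ⟨m₀, N, a, hN, hm₀, ha, h, -, -⟩ := seed_params s hs
  filter_upwards [growth hN hm₀ a ha] with m hm
  have h1 : m ^ s * N ≤ (120 * (s * Nat.clog 2 s * s.factorial) * f m s) * N := by
    calc m ^ s * N ≤ 2 * m₀ ^ s * f m s := hm
      _ ≤ 2 * (60 * (s * Nat.clog 2 s * s.factorial) * N) * f m s :=
        Nat.mul_le_mul_right _ (Nat.mul_le_mul_left _ h)
      _ = (120 * (s * Nat.clog 2 s * s.factorial) * f m s) * N := by ring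
  exact Nat.le_of_mul_le_mul_right h1 hN

end Pool.Agent.Results.MP_f16338_co.FixedSummands
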