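import Pool.Agent.Lib_helper1.Fms.All

/-!
# The trivial upper bound for `f(m,s)` is sharp up to a power of `min(m,s)`, for all `m` and `s`
-/

namespace Pool.Agent.Results.MP_f16338_co.UniformAllRanges

open Pool.Agent.FMS

/-- There is an absolute constant `C` with `(m+s).choose s ≤ C min(m,s)¹⁷ f(m,s)` for all
`m, s ≥ 1`. -/
theorem result : ∃ C : ℕ, ∀ m s : ℕ, 1 ≤ m → 1 ≤ s →
    (m + s).choose s ≤ C * (min m s) ^ 17 * f m s :=
  Pool.Agent.Lib_helper1.Fms.uniform_all

end Pool.Agent.Results.MP_f16338_co.UniformAllRanges
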