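import Pool.Agent.Lib_helper64.FMS.Core

/-!
# A lower bound for `f(m,s)` that is uniform in `m` and `s`
-/

namespace Pool.Agent.Results.MP_f16338_co.UniformLowerBound

open Pool.Agent.FMS

/-- Put `M = (k+r).choose r` and `H = (h_1+1)⋯(h_t+1)`. If `(2N)^(H+1) < (2N+M)^H`, that is, if
`(1 + M/(2N))^H > 2N`, then `f(k+h_1+⋯+h_t, r+t) > N`. -/
theorem result (k r t N : ℕ) (h : Fin t → ℕ)
    (hN : (2 * N) ^ ((∏ i, (h i + 1)) + 1) <
      (2 * N + (k + r).choose r) ^ (∏ i, (h i + 1))) :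
    N < f (k + ∑ i, h i) (r + t) :=
  lt_f h hN

end Pool.Agent.Results.MP_f16338_co.UniformLowerBound
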