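import Pool.Agent.Lib_helper64.FMS.Core
import Pool.Agent.Lib_helper56.UB.Lat

/-!
# MP_f16338_co: upper bounds for `f(m, s)`
-/

set_option autoImplicit false

open MeasureTheory

namespace Pool.Agent.Results.MP_f16338_co.UpperBound

open Pool.Agent.FMS Pool.Agent.Lib_helper56.UB

theorem basis_f (m s : ℕ) : ∃ A : Finset (ZMod (f m s)), A.card ≤ m ∧ IsBasis A s := by
  obtain ⟨h1, A, hA, hs⟩ : f m s ∈ orders m s :=
    Nat.sSup_mem ⟨1, one_mem_orders m s⟩ (bddAbove_orders m s)
  refine ⟨A, hA, fun x => ?_⟩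
  have h3 : x ∈ sums s A := by
    rw [hs]
    exact Set.mem_univ x
  exact h3

theorem f_pos (m s : ℕ) : 1 ≤ f m s := le_f (one_mem_orders m s)

/-- (1) For all `m ≥ 2` and `s ≥ 2`: if a finite abelian group `G` has a subset `A` of at most
`m` elements such that every element of `G` is a sum of at most `s` elements of `A` then
`(1 + min(1, s/m)/1000) |G| ≤ C(m+s,s)`; in particular this holds for `f m s` in place of `|G|`.
(2) For `0 < ε ≤ 1/2`, `m ≥ exp(1000/ε²)` and `s ≥ 1` the same with the factor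
`(1 - ε) min(1 + s/m, √m / (log m)³)`.
(3) If `ℝ^m` is covered by the translates `y + T`, `y ∈ L`, of a simplex `T` (the convex hull of
`m + 1` affinely independent points `p`) by the vectors of a lattice `L` then `vol(T) / covol(L)`, the
density of the covering, is at least `1.001` if `m ≥ 2`, and at least `(1 - ε) √m / (log m)³` if
`0 < ε ≤ 1/2` and `m ≥ exp(1000/ε²)`. -/
theorem result :
    (∀ m s : ℕ, 2 ≤ m → 2 ≤ s →
      (∀ (G : Type) [AddCommGroup G] [Finite G] (A : Finset G), A.card ≤ m → IsBasis A s →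
        (1 + min 1 ((s : ℝ) / m) / 1000) * Nat.card G ≤ (m + s).choose s) ∧
      (1 + min 1 ((s : ℝ) / m) / 1000) * f m s ≤ (m + s).choose s) ∧
    (∀ ε : ℝ, 0 < ε → ε ≤ 1 / 2 → ∀ m s : ℕ, Real.exp (1000 / ε ^ 2) ≤ m → 1 ≤ s →
      (∀ (G : Type) [AddCommGroup G] [Finite G] (A : Finset G), A.card ≤ m → IsBasis A s →
        (1 - ε) * min (1 + (s : ℝ) / m) (√m / Real.log m ^ 3) * Nat.card G ≤
          (m + s).choose s) ∧
      (1 - ε) * min (1 + (s : ℝ) / m) (√m / Real.log m ^ 3) * f m s ≤ (m + s).choose s) ∧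
    ∀ (m : ℕ) (L : Submodule ℤ (Fin m → ℝ)) [DiscreteTopology L] [IsZLattice ℝ L]
      (p : Fin (m + 1) → Fin m → ℝ), AffineIndependent ℝ p →
      (∀ x, ∃ y ∈ L, ∃ z ∈ convexHull ℝ (Set.range p), x = y + z) →
      (2 ≤ m → 1001 / 1000 * ZLattice.covolume L ≤ volume.real (convexHull ℝ (Set.range p))) ∧
      ∀ ε : ℝ, 0 < ε → ε ≤ 1 / 2 → Real.exp (1000 / ε ^ 2) ≤ m →
        (1 - ε) * (√m / Real.log m ^ 3) * ZLattice.covolume L ≤
          volume.real (convexHull ℝ (Set.range p)) := by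
  refine ⟨?_, ?_, ?_⟩
  · intro m s hm hs
    refine ⟨fun G _ _ A hA hfull => final_all hm hs G A hA hfull, ?_⟩
    obtain ⟨A, hA, hfull⟩ := basis_f m s
    have : NeZero (f m s) := ⟨by have := f_pos m s; omega⟩
    have h2 := final_all hm hs (ZMod (f m s)) A hA hfull
    rw [Nat.card_zmod] at h2
    exact h2
  · intro ε hε hε2 m s hm hs
    refine ⟨fun G _ _ A hA hfull => final_large hε hε2 hm hs G A hA hfull, ?_⟩
    obtain ⟨A, hA, hfull⟩ := basis_f m s
    have : NeZero (f m s) := ⟨by have := f_pos m s; omega⟩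
    have h2 := final_large hε hε2 hm hs (ZMod (f m s)) A hA hfull
    rw [Nat.card_zmod] at h2
    exact h2
  · intro m L _ _ p hp hcov
    exact ⟨fun hm => density_all hm L p hp hcov,
      fun ε hε hε2 hm => density_large hε hε2 hm L p hp hcov⟩

end Pool.Agent.Results.MP_f16338_co.UpperBound
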